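import Pool.Agent.X234.MC.Main
import Pool.Agent.Helper227.CD.Pos

/-!
# Measures of maximal plain complexity at all lengths have maximal prefix-free complexity

Every probability measure on Cantor space which satisfies (B2) also satisfies (A2).
-/

set_option autoImplicit false

namespace Pool.Agent.Results.MP_018646_lc.PlainImpliesPrefix

open MeasureTheory

/-- `V` is a universal (optimal) plain machine: it is partial recursive and simulates every partial
recursive function on strings with programs longer by at most a constant. -/
def PlainUniversal (V : List Bool →. List Bool) : Prop :=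
  Partrec V ∧ ∀ M : List Bool →. List Bool, Partrec M →
    ∃ c : ℕ, ∀ p y : List Bool, y ∈ M p → ∃ p' : List Bool, p'.length ≤ p.length + c ∧ y ∈ V p'

/-- `M` is a prefix-free machine: partial recursive with prefix-free domain. -/
def PrefixMachine (M : List Bool →. List Bool) : Prop :=
  Partrec M ∧ ∀ p q : List Bool, (M p).Dom → (M q).Dom → p <+: q → p = q

/-- `U` is a universal (optimal) prefix-free machine. -/
def PrefixUniversal (U : List Bool →. List Bool) : Prop :=
  PrefixMachine U ∧ ∀ M : List Bool →. List Bool, PrefixMachine M →
    ∃ c : ℕ, ∀ p y : List Bool, y ∈ M p → ∃ p' : List Bool, p'.length ≤ p.length + c ∧ y ∈ U p'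

/-- The complexity of the string `y` with respect to the machine `U`: the least length of a
program for `y`. For a universal plain machine this is `C(y)`, for a universal prefix-free machine
it is `K(y)`. -/
noncomputable def compl (U : List Bool →. List Bool) (y : List Bool) : ℕ :=
  sInf {n | ∃ p : List Bool, p.length = n ∧ y ∈ U p}

/-- The complexity of the measure `μ` at length `n` with respect to the machine `U`: the
`μ`-average of the complexities of the strings of length `n`. -/
noncomputable def measCompl (U : List Bool →. List Bool) (μ : Measure (ℕ → Bool)) (n : ℕ) : ℝ :=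
  ∑ x : Fin n → Bool, μ.real {X | ∀ i : Fin n, X i = x i} * (compl U (List.ofFn x) : ℝ)

/-- Universal plain and prefix-free machines exist, and for all universal plain machines `V`
(complexity `C`) and universal prefix-free machines `U` (complexity `K`), for every computable
coding `num` of the natural numbers by strings and for every Borel probability measure `μ` on Cantor
space: if `C (μ ↾ n) ≥ n - O(1)` for all `n` then `K (μ ↾ n) ≥ n + K(n) - O(1)` for all `n`. -/
theorem result : (∃ V, PlainUniversal V) ∧ (∃ U, PrefixUniversal U) ∧
    ∀ V U : List Bool →. List Bool, PlainUniversal V → PrefixUniversal U →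
      ∀ num : ℕ → List Bool, Computable num →
        ∀ μ : Measure (ℕ → Bool), IsProbabilityMeasure μ →
          (∃ c : ℝ, ∀ n : ℕ, (n : ℝ) - c ≤ measCompl V μ n) →
            ∃ c : ℝ, ∀ n : ℕ, (n : ℝ) + compl U (num n) - c ≤ measCompl U μ n := by
  refine ⟨X234.MC.exists_plain, Helper227.exists_isUniversal, ?_⟩
  intro V U hV hU num hnum μ hμ hB
  exact X234.MC.main μ hV hU num hnum hB

end Pool.Agent.Results.MP_018646_lc.PlainImpliesPrefix
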